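import Pool.Agent.H221R3.MD.Stmts

/-! Task B of project MD (helper744). -/

set_option autoImplicit false

namespace Pool.Agent.H744R3.MD

open Pool.Agent.H221R3.MD Finset

/-- orthogonality of the roots of unity, one variable -/
theorem orth_one {N : ℕ} (hN : 0 < N) (z : ℤ) :
    ∑ j : Fin N, Complex.exp (Complex.I * ((2 * Real.pi * (j : ℕ) / N * z : ℝ) : ℂ)) =
      if (N : ℤ) ∣ z then (N : ℂ) else 0 := by
  have hNc : (N : ℂ) ≠ 0 := by exact_mod_cast hN.ne'
  set w : ℂ := Complex.exp (2 * Real.pi * Complex.I * (z / N)) with hw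
  have e : ∀ j : Fin N, Complex.exp (Complex.I * ((2 * Real.pi * (j : ℕ) / N * z : ℝ) : ℂ)) =
      w ^ (j : ℕ) := fun j => by
    rw [hw, ← Complex.exp_nat_mul]
    congr 1
    push_cast
    ring
  simp only [e]
  rw [Fin.sum_univ_eq_sum_range (fun j => w ^ j)]
  split_ifs with h
  · obtain ⟨t, rfl⟩ := h
    have : w = 1 := by
      rw [hw, Complex.exp_eq_one_iff]
      refine ⟨t, ?_⟩
      push_cast
      field_simp
    rw [this]; simp
  · have hw1 : w ≠ 1 := by
      intro h1
      rw [hw, Complex.exp_eq_one_iff] at h1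
      obtain ⟨t, ht⟩ := h1
      apply h
      refine ⟨t, ?_⟩
      have hpi : (2 * Real.pi * Complex.I : ℂ) ≠ 0 := Complex.two_pi_I_ne_zero
      have h2 : (z : ℂ) / N = t := by
        apply mul_left_cancel₀ hpi
        rw [ht]; ring
      have h3 : (z : ℂ) = N * t := by
        rw [← h2]; field_simp
      exact_mod_cast h3
    have hwN : w ^ N = 1 := by
      rw [hw, ← Complex.exp_nat_mul, Complex.exp_eq_one_iff]
      refine ⟨z, ?_⟩
      field_simp
    rw [geom_sum_eq hw1, hwN, sub_self, zero_div]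

theorem orth {ι : Type} [Fintype ι] [DecidableEq ι] {N : ℕ} (hN : 0 < N) (z : ι → ℤ) :
    ∑ j : ι → Fin N, Real.cos (∑ s, 2 * Real.pi * (j s : ℕ) / N * z s) =
      if ∀ s, (N : ℤ) ∣ z s then (N : ℝ) ^ Fintype.card ι else 0 := by
  have h1 : ∑ j : ι → Fin N,
      Complex.exp (Complex.I * ((∑ s, 2 * Real.pi * (j s : ℕ) / N * z s : ℝ) : ℂ)) =
      ∏ s, (if (N : ℤ) ∣ z s then (N : ℂ) else 0) := by
    rw [← prod_congr rfl (fun s _ => orth_one hN (z s)), Finset.prod_univ_sum,
      Fintype.piFinset_univ]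
    refine sum_congr rfl fun j _ => ?_
    rw [← Complex.exp_sum, Complex.ofReal_sum, mul_sum]
  have h2 : (∏ s, (if (N : ℤ) ∣ z s then (N : ℂ) else 0)) =
      ((if ∀ s, (N : ℤ) ∣ z s then (N : ℝ) ^ Fintype.card ι else 0 : ℝ) : ℂ) := by
    split_ifs with h
    · rw [prod_congr rfl (fun s _ => if_pos (h s)), prod_const, card_univ]; push_cast; rfl
    · push Not at h
      obtain ⟨s, hs⟩ := h
      rw [prod_eq_zero (mem_univ s) (if_neg hs)]; simp
  rw [h2] at h1
  have h3 := congrArg Complex.re h1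
  rw [Complex.ofReal_re, Complex.re_sum] at h3
  rw [← h3]
  refine sum_congr rfl fun j _ => ?_
  rw [mul_comm Complex.I, Complex.exp_ofReal_mul_I_re]

theorem taskB : TaskB := by
  intro hA q n D K C hK S hR y
  set P : (Fin n → Fin q) → (Fin n → Fin q) → ℝ := fun a b => ∏ k, K (a k) (b k) with hP
  set F : ((Fin n → Fin q) → ℝ) → ℝ := fun ξ =>
    ∑ a, ∑ b, P a b * Real.cos (∑ s ∈ S, ξ s * (ms D a b s : ℝ)) with hF
  have hF0 : ∀ ξ, 0 ≤ F ξ := fun ξ => (hA q n D K C hK S ξ).1
  have hFs : ∀ ξ : (Fin n → Fin q) → ℝ,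
      ∑ a, ∑ b, P a b * Real.sin (∑ s ∈ S, ξ s * (ms D a b s : ℝ)) = 0 :=
    fun ξ => (hA q n D K C hK S ξ).2
  -- the identity
  have key : ∀ (N : ℕ) (y : (Fin n → Fin q) → ℤ), 0 < N →
      (∀ a b s, (N : ℤ) ∣ ms D a b s - y s → ms D a b s = y s) →
      (N : ℝ) ^ Fintype.card (Fin n → Fin q) *
        (∑ a, ∑ b, P a b * (if ∀ s ∈ S, ms D a b s = y s then (1 : ℝ) else 0)) =
      ∑ j : (Fin n → Fin q) → Fin N,
        Real.cos (∑ s ∈ S, 2 * Real.pi * (j s : ℕ) / N * y s) *
          F (fun s => 2 * Real.pi * (j s : ℕ) / N) := by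
    intro N y hN hdvd
    have h1 : ∀ a b, (N : ℝ) ^ Fintype.card (Fin n → Fin q) *
        (if ∀ s ∈ S, ms D a b s = y s then (1 : ℝ) else 0) =
        ∑ j : (Fin n → Fin q) → Fin N,
          (Real.cos (∑ s ∈ S, 2 * Real.pi * (j s : ℕ) / N * (ms D a b s : ℝ)) *
            Real.cos (∑ s ∈ S, 2 * Real.pi * (j s : ℕ) / N * y s) +
          Real.sin (∑ s ∈ S, 2 * Real.pi * (j s : ℕ) / N * (ms D a b s : ℝ)) *
            Real.sin (∑ s ∈ S, 2 * Real.pi * (j s : ℕ) / N * y s)) := by
      intro a b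
      have h2 := orth hN (fun s => if s ∈ S then ms D a b s - y s else 0)
      have h3 : (∀ s, (N : ℤ) ∣ (if s ∈ S then ms D a b s - y s else 0)) ↔
          ∀ s ∈ S, ms D a b s = y s := by
        constructor
        · intro h s hs
          have := h s
          rw [if_pos hs] at this
          exact hdvd a b s this
        · intro h s
          split_ifs with hs
          · rw [h s hs, sub_self]; exact dvd_zero _
          · exact dvd_zero _
      have h4 : (N : ℝ) ^ Fintype.card (Fin n → Fin q) *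
          (if ∀ s ∈ S, ms D a b s = y s then (1 : ℝ) else 0) =
          if ∀ s, (N : ℤ) ∣ (if s ∈ S then ms D a b s - y s else 0) then
            (N : ℝ) ^ Fintype.card (Fin n → Fin q) else 0 := by
        by_cases h : ∀ s ∈ S, ms D a b s = y s
        · rw [if_pos h, if_pos (h3.2 h), mul_one]
        · rw [if_neg h, if_neg (fun h' => h (h3.1 h')), mul_zero]
      rw [h4, ← h2]
      refine sum_congr rfl fun j _ => ?_
      rw [← Real.cos_sub, ← sum_sub_distrib]
      congr 1
      rw [← sum_filter_add_sum_filter_not univ (· ∈ S)]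
      rw [show (univ.filter (· ∈ S)) = S by ext s; simp]
      rw [sum_congr rfl (g := fun s => 2 * Real.pi * ((j s : Fin N) : ℕ) / N * (ms D a b s : ℝ) -
          2 * Real.pi * ((j s : Fin N) : ℕ) / N * (y s : ℝ)) (fun s hs => by
            rw [if_pos hs]; push_cast; ring)]
      rw [sum_eq_zero (s := univ.filter (fun s => ¬ s ∈ S)) (fun s hs => by
        rw [if_neg (by simpa using hs)]; simp), add_zero]
    calc (N : ℝ) ^ Fintype.card (Fin n → Fin q) *
        (∑ a, ∑ b, P a b * (if ∀ s ∈ S, ms D a b s = y s then (1 : ℝ) else 0))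
        = ∑ a, ∑ b, P a b * ((N : ℝ) ^ Fintype.card (Fin n → Fin q) *
          (if ∀ s ∈ S, ms D a b s = y s then (1 : ℝ) else 0)) := by
          rw [mul_sum]
          refine sum_congr rfl fun a _ => ?_
          rw [mul_sum]
          refine sum_congr rfl fun b _ => ?_
          ring
      _ = ∑ a, ∑ b, ∑ j : (Fin n → Fin q) → Fin N,
          (Real.cos (∑ s ∈ S, 2 * Real.pi * (j s : ℕ) / N * y s) *
            (P a b * Real.cos (∑ s ∈ S, 2 * Real.pi * (j s : ℕ) / N * (ms D a b s : ℝ))) +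
          Real.sin (∑ s ∈ S, 2 * Real.pi * (j s : ℕ) / N * y s) *
            (P a b * Real.sin (∑ s ∈ S, 2 * Real.pi * (j s : ℕ) / N * (ms D a b s : ℝ)))) := by
          refine sum_congr rfl fun a _ => sum_congr rfl fun b _ => ?_
          rw [h1, mul_sum]
          refine sum_congr rfl fun j _ => ?_
          ring
      _ = ∑ j : (Fin n → Fin q) → Fin N, ∑ a, ∑ b,
          (Real.cos (∑ s ∈ S, 2 * Real.pi * (j s : ℕ) / N * y s) *
            (P a b * Real.cos (∑ s ∈ S, 2 * Real.pi * (j s : ℕ) / N * (ms D a b s : ℝ))) +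
          Real.sin (∑ s ∈ S, 2 * Real.pi * (j s : ℕ) / N * y s) *
            (P a b * Real.sin (∑ s ∈ S, 2 * Real.pi * (j s : ℕ) / N * (ms D a b s : ℝ)))) := by
          rw [sum_congr rfl (fun a _ => sum_comm), sum_comm]
      _ = _ := by
          refine sum_congr rfl fun j _ => ?_
          simp only [sum_add_distrib]
          simp only [← mul_sum]
          rw [hFs (fun s => 2 * Real.pi * (j s : ℕ) / N), mul_zero, add_zero]
  -- a large modulus
  obtain ⟨N, hN, hN1, hN2⟩ : ∃ N : ℕ, 0 < N ∧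
      (∀ a b s, (N : ℤ) ∣ ms D a b s - y s → ms D a b s = y s) ∧
      (∀ a b s, (N : ℤ) ∣ ms D a b s - 0 → ms D a b s = 0) := by
    set M : ℕ := ∑ a : Fin n → Fin q, ∑ b : Fin n → Fin q, ∑ s : Fin n → Fin q,
      ((ms D a b s - y s).natAbs + (ms D a b s).natAbs) with hM
    have hle : ∀ a b s, (ms D a b s - y s).natAbs + (ms D a b s).natAbs ≤ M := by
      intro a b s
      calc _ ≤ ∑ s : Fin n → Fin q, ((ms D a b s - y s).natAbs + (ms D a b s).natAbs) :=
            single_le_sum (f := fun s => (ms D a b s - y s).natAbs + (ms D a b s).natAbs)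
              (fun _ _ => Nat.zero_le _) (mem_univ s)
        _ ≤ ∑ b : Fin n → Fin q, ∑ s : Fin n → Fin q,
              ((ms D a b s - y s).natAbs + (ms D a b s).natAbs) :=
            single_le_sum (f := fun b => ∑ s : Fin n → Fin q,
              ((ms D a b s - y s).natAbs + (ms D a b s).natAbs))
              (fun _ _ => Nat.zero_le _) (mem_univ b)
        _ ≤ M := single_le_sum (f := fun a => ∑ b : Fin n → Fin q, ∑ s : Fin n → Fin q,
              ((ms D a b s - y s).natAbs + (ms D a b s).natAbs))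
              (fun _ _ => Nat.zero_le _) (mem_univ a)
    have hz : ∀ z : ℤ, z.natAbs ≤ M → ((M + 1 : ℕ) : ℤ) ∣ z → z = 0 := by
      intro z hz hd
      exact Int.eq_zero_of_dvd_of_natAbs_lt_natAbs hd (by
        rw [Int.natAbs_natCast]; omega)
    refine ⟨M + 1, Nat.succ_pos _, fun a b s h => ?_, fun a b s h => ?_⟩
    · have := hz _ (by have := hle a b s; omega) h
      omega
    · rw [sub_zero] at h
      exact hz _ (by have := hle a b s; omega) h
  have hNpos : (0 : ℝ) < (N : ℝ) ^ Fintype.card (Fin n → Fin q) := by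
    have : (0 : ℝ) < N := by exact_mod_cast hN
    positivity
  have k1 := key N y hN hN1
  have k2 := key N (fun _ => 0) hN hN2
  have hle : (N : ℝ) ^ Fintype.card (Fin n → Fin q) *
        (∑ a, ∑ b, P a b * (if ∀ s ∈ S, ms D a b s = y s then (1 : ℝ) else 0)) ≤
      (N : ℝ) ^ Fintype.card (Fin n → Fin q) *
        (∑ a, ∑ b, P a b * (if ∀ s ∈ S, ms D a b s = 0 then (1 : ℝ) else 0)) := by
    rw [k1, k2]
    refine sum_le_sum fun j _ => ?_
    refine mul_le_mul_of_nonneg_right ?_ (hF0 _)
    simpa using Real.cos_le_one _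
  refine (le_of_mul_le_mul_left hle hNpos).trans (le_of_eq ?_)
  -- only the diagonal contributes
  have hdiag : ∀ a b : Fin n → Fin q, (∀ s ∈ S, ms D a b s = 0) ↔ a = b := by
    intro a b
    constructor
    · intro h
      by_contra hab
      obtain ⟨s, hs, hne⟩ := hR a b hab
      apply hne
      have := h s hs
      unfold ms at this
      rw [sum_sub_distrib, sub_eq_zero] at this
      exact_mod_cast this
    · rintro rfl s _
      unfold ms
      simp
  calc ∑ a, ∑ b, P a b * (if ∀ s ∈ S, ms D a b s = 0 then (1 : ℝ) else 0)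
      = ∑ a, P a a := by
        refine sum_congr rfl fun a _ => ?_
        rw [sum_eq_single a]
        · rw [if_pos ((hdiag a a).2 rfl), mul_one]
        · intro b _ hb
          rw [if_neg (fun h => hb ((hdiag a b).1 h).symm), mul_zero]
        · intro h; exact absurd (mem_univ a) h
    _ = ∏ _k : Fin n, ∑ u, K u u := by
        rw [Finset.prod_univ_sum, Fintype.piFinset_univ]
    _ = 1 := by rw [hK.2.2.1]; simp

end Pool.Agent.H744R3.MD
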